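import Pool.Agent.Y669.GW.Insep

/-!
# Groups without laws

The free group of rank two satisfies no law: it contains free groups of infinite rank.
-/

set_option autoImplicit false

namespace Pool.Agent.Y669.GW

universe u v

/-- the shift of the free group on the integers -/
noncomputable def shiftZ : MulAut (FreeGroup ℤ) := FreeGroup.freeGroupCongr (Equiv.addRight (1 : ℤ))

theorem shiftZ_zpow (k n : ℤ) : (shiftZ ^ k) (FreeGroup.of n) = FreeGroup.of (n + k) := by
  have h1 : ∀ n : ℤ, shiftZ (FreeGroup.of n) = FreeGroup.of (n + 1) := fun n => by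
    unfold shiftZ
    simp
  have h2 : ∀ n : ℤ, shiftZ⁻¹ (FreeGroup.of n) = FreeGroup.of (n - 1) := fun n => by
    rw [← sub_add_cancel n 1, ← h1, MulAut.inv_apply_self]
    simp
  induction k using Int.induction_on with
  | zero => simp
  | succ i ih =>
    rw [add_comm (i : ℤ) 1, zpow_add, zpow_one, MulAut.mul_apply, ih, h1]
    congr 1
    ring
  | pred i ih =>
    rw [sub_eq_add_neg, add_comm (-(i : ℤ)) (-1), zpow_add, zpow_neg_one, MulAut.mul_apply, ih, h2]
    congr 1
    ring

/-- the elements `a ^ i * b * a ^ (-i)` -/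
def conjPow (i : ℕ) : FreeGroup (Fin 2) :=
  FreeGroup.of 0 ^ i * FreeGroup.of 1 * (FreeGroup.of 0 ^ i)⁻¹

theorem lift_conjPow_injective : Function.Injective (FreeGroup.lift conjPow) := by
  let φ : Multiplicative ℤ →* MulAut (FreeGroup ℤ) := zpowersHom _ shiftZ
  let ψ : FreeGroup (Fin 2) →* FreeGroup ℤ ⋊[φ] Multiplicative ℤ := FreeGroup.lift fun i =>
    if i = 0 then SemidirectProduct.inr (Multiplicative.ofAdd 1)
      else SemidirectProduct.inl (FreeGroup.of 0)
  have hcomp : ψ.comp (FreeGroup.lift conjPow) =
      (SemidirectProduct.inl).comp (FreeGroup.map (fun n : ℕ => (n : ℤ))) := by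
    apply FreeGroup.ext_hom
    intro i
    have h0 : ψ (FreeGroup.of 0) = SemidirectProduct.inr (Multiplicative.ofAdd 1) := by
      simp [ψ]
    have h1 : ψ (FreeGroup.of 1) = SemidirectProduct.inl (FreeGroup.of 0) := by
      simp [ψ]
    have h2 : φ (Multiplicative.ofAdd 1 ^ i) (FreeGroup.of 0) = FreeGroup.of ((i : ℕ) : ℤ) := by
      have h3 : φ (Multiplicative.ofAdd 1 ^ i) = shiftZ ^ (i : ℤ) := by
        simp [φ, zpowersHom_apply]
      rw [h3, shiftZ_zpow, zero_add]
    rw [MonoidHom.comp_apply, MonoidHom.comp_apply, FreeGroup.lift_apply_of, FreeGroup.map.of,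
      conjPow, map_mul, map_mul, map_inv, map_pow, h0, h1, ← map_pow, ← map_inv, ← h2,
      SemidirectProduct.inl_aut]
  have hinj : Function.Injective (ψ.comp (FreeGroup.lift conjPow)) := by
    rw [hcomp]
    exact SemidirectProduct.inl_injective.comp (FreeGroup.map_injective Nat.cast_injective)
  intro x y hxy
  exact hinj (congrArg ψ hxy)

/-- A group with a free subgroup of rank two contains a free group of infinite rank. -/
theorem exists_lift_injective {G : Type u} [Group G] (φ : FreeGroup (Fin 2) →* G)
    (hφ : Function.Injective φ) :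
    ∃ v : ℕ → G, ∀ x : FreeGroup ℕ, FreeGroup.lift v x = 1 → x = 1 := by
  refine ⟨fun i => φ (conjPow i), fun x hx => ?_⟩
  have h : FreeGroup.lift (fun i => φ (conjPow i)) = φ.comp (FreeGroup.lift conjPow) := by
    apply FreeGroup.ext_hom
    intro i
    simp
  rw [h, MonoidHom.comp_apply] at hx
  have h1 : FreeGroup.lift conjPow x = 1 := hφ (hx.trans (map_one φ).symm)
  exact lift_conjPow_injective (h1.trans (map_one _).symm)

open Pool.Agent.Helper583 in
/-- An identity of a group with a free subgroup of infinite rank is an identity of every group. -/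
theorem identicallyEqual_of_free {G : Type u} [Group G] {v : ℕ → G}
    (hv : ∀ x : FreeGroup ℕ, FreeGroup.lift v x = 1 → x = 1) {H : Type v} [Group H]
    {u w : Word} (h : IdenticallyEqual G u w) : IdenticallyEqual H u w := by
  have key : ∀ {K : Type _} [Group K] (f : ℕ → K) (w : Word),
      FreeGroup.lift f (FreeGroup.mk w) = wEval f w := by
    intro K _ f w
    rw [FreeGroup.lift_mk]
    unfold wEval
    congr 1
    apply List.map_congr_left
    intro a _
    rcases a with ⟨i, b⟩
    cases b <;> rfl
  have h1 : FreeGroup.mk u = FreeGroup.mk w := by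
    refine div_eq_one.1 (hv _ ?_)
    have e : ∀ w : Word, FreeGroup.lift v (FreeGroup.mk w) = wEval v w := by
      intro w
      rw [FreeGroup.lift_mk]
      unfold wEval
      congr 1
      apply List.map_congr_left
      intro a _
      rcases a with ⟨i, b⟩
      cases b <;> rfl
    rw [map_div, e, e, h v, div_self']
  intro f
  rw [← key, ← key, h1]

end Pool.Agent.Y669.GW
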