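import Pool.Agent.Y669.GW.Rewrite

/-!
# Transfer of identities along isomorphisms of groups
-/

set_option autoImplicit false

namespace Pool.Agent.Y669.GW

open Pool.Agent.Helper583

universe u v

theorem wEval_map {G : Type u} {H : Type v} [Group G] [Group H] (e : G →* H) (f : ℕ → G)
    (w : Word) : wEval (fun i => e (f i)) w = e (wEval f w) := by
  unfold wEval
  rw [map_list_prod, List.map_map]
  congr 1
  refine List.map_congr_left fun p _ => ?_
  simp only [Function.comp_apply]
  split_ifs
  · rfl
  · rw [map_inv]

theorem identicallyEqual_congr {G : Type u} {H : Type v} [Group G] [Group H] (e : G ≃* H)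
    {v w : Word} (h : IdenticallyEqual G v w) : IdenticallyEqual H v w := by
  intro f
  have h1 := congrArg e (h fun i => e.symm (f i))
  have h2 : ∀ u : Word, e (wEval (fun i => e.symm (f i)) u) = wEval f u := by
    intro u
    have h3 := wEval_map (e : G →* H) (fun i => e.symm (f i)) u
    rw [MonoidHom.coe_coe] at h3
    rw [← h3]
    congr 1
    funext i
    exact e.apply_symm_apply (f i)
  rw [h2, h2] at h1
  exact h1

/-- The permutations of a finite type of the model form a finite symmetric group. -/
theorem exists_perm (s : Type u) [Finite s] :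
    ∃ n : ℕ, Nonempty (Equiv.Perm (VV s) ≃* Equiv.Perm (Fin n)) := by
  have : Finite (VV s) := by
    unfold VV W2 K
    infer_instance
  obtain ⟨n, ⟨e⟩⟩ := Finite.exists_equiv_fin (VV s)
  exact ⟨n, ⟨e.permCongrHom⟩⟩

end Pool.Agent.Y669.GW
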