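import Pool.Agent.Y669.GW.Rewrite

/-!
# Finite groups: the exact criterion

On every finite group the target word can be formed if and only if no finite action of the
rewriting system separates the two words: the operators of a finite group form a finite quotient
of the free monoid.  Separation by a finite action is recursively enumerable.
-/

set_option autoImplicit false

namespace Pool.Agent.Y669.GW

open Pool.Agent.Helper583
open Nat.Partrec (Code)

universe u

/-- Some finite action of the rewriting system `R` separates the words `a` and `b`. -/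
def FinSep (R : List (List Bool × List Bool)) (a b : List Bool) : Prop :=
  ∃ (s : Type) (_ : Finite s) (α : Bool → s → s) (m : s),
    (∀ p ∈ R, ∀ m, actW α p.1 m = actW α p.2 m) ∧ actW α a m ≠ actW α b m

/-! ### From finite groups to finite actions -/

/-- The two words act in the same way on `G`. -/
def SameOn (G : Type u) [Group G] (g h : List Bool) : Prop :=
  ∀ x0 x1 x2 z : G, Zw x0 x1 x2 g z = Zw x0 x1 x2 h z

/-- A rewriting step or a replacement by a word with the same operator. -/
def GStep (G : Type u) [Group G] (R : List (List Bool × List Bool)) (a b : List Bool) : Prop :=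
  RStep R a b ∨ SameOn G a b

theorem VQ_genG {G : Type u} [Group G] {R : List (List Bool × List Bool)} {E : Word → Prop}
    (hE : ClosedFor G (allWords R) E) {a b : List Bool} (h : Relation.EqvGen (GStep G R) a b) :
    VQ E (wZw a (wv 4)) (wv 5) (wZw b (wv 4)) (wv 5) ∧
      VQ E (wZw b (wv 4)) (wv 5) (wZw a (wv 4)) (wv 5) := by
  induction h with
  | rel a b h =>
    rcases h with h | h
    · exact ⟨VQ_step hE (Or.inl h), VQ_step hE (Or.inr h)⟩
    · constructor
      · intro w hw
        refine hE.congr _ _ hw fun f => ?_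
        simp [wEval_append, wEval_wInv, wEval_wPv, wEval_wZw, h _ _ _ _]
      · intro w hw
        refine hE.congr _ _ hw fun f => ?_
        simp [wEval_append, wEval_wInv, wEval_wPv, wEval_wZw, h _ _ _ _]
  | refl a => exact ⟨VQ.refl hE _ _, VQ.refl hE _ _⟩
  | symm a b _ ih => exact ⟨ih.2, ih.1⟩
  | trans a b c _ _ ih1 ih2 => exact ⟨VQ.trans hE ih1.1 ih2.1, VQ.trans hE ih2.2 ih1.2⟩

theorem GStep.append {G : Type u} [Group G] {R : List (List Bool × List Bool)} {x y : List Bool}
    (h : GStep G R x y) (z : List Bool) : GStep G R (x ++ z) (y ++ z) := by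
  rcases h with ⟨u, v, g, h, H⟩ | h
  · left
    have := RStep.mk (R := R) u (v ++ z) g h H
    simpa using this
  · right
    intro x0 x1 x2 t
    rw [Zw_append, Zw_append, h]

theorem eqvG_append {G : Type u} [Group G] {R : List (List Bool × List Bool)} {x y : List Bool}
    (h : Relation.EqvGen (GStep G R) x y) (z : List Bool) :
    Relation.EqvGen (GStep G R) (x ++ z) (y ++ z) := by
  induction h with
  | rel a b h => exact Relation.EqvGen.rel _ _ (h.append z)
  | refl a => exact Relation.EqvGen.refl _
  | symm a b _ ih => exact ih.symm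
  | trans a b c _ _ ih1 ih2 => exact ih1.trans _ _ _ ih2

/-- Words which are not separated by a finite action are equivalent for every finite group. -/
theorem eqvG_of_not_finSep (G : Type u) [Group G] [Finite G] {R : List (List Bool × List Bool)}
    {a b : List Bool} (hns : ¬ FinSep R a b) : Relation.EqvGen (GStep G R) a b := by
  classical
  let S : Setoid (List Bool) := Relation.EqvGen.setoid (GStep G R)
  have hfin : Finite (Quotient S) := by
    let φ : List Bool → (G × G × G × G → G) := fun g q => Zw q.1 q.2.1 q.2.2.1 g q.2.2.2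
    have : Finite (Set.range φ) := inferInstance
    have hex : ∀ y : Set.range φ, ∃ g : List Bool, φ g = y.1 := fun y => y.2
    choose sec hsec using hex
    refine Finite.of_surjective (fun y : Set.range φ => (Quotient.mk S (sec y))) ?_
    intro q
    induction q using Quotient.inductionOn with
    | h g =>
      refine ⟨⟨φ g, g, rfl⟩, Quotient.sound ?_⟩
      refine Relation.EqvGen.rel _ _ (Or.inr fun x0 x1 x2 z => ?_)
      exact congrFun (hsec ⟨φ g, g, rfl⟩) (x0, x1, x2, z)
  let α : Bool → Quotient S → Quotient S := fun k =>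
    Quotient.map (fun x => x ++ [k]) (fun x y hxy => eqvG_append hxy [k])
  have hact : ∀ (g x : List Bool), actW α g (Quotient.mk S x) = Quotient.mk S (x ++ g) := by
    intro g
    induction g with
    | nil => intro x; simp
    | cons k g ih =>
      intro x
      rw [actW_cons]
      change actW α g (Quotient.mk S (x ++ [k])) = _
      rw [ih, List.append_assoc]
      rfl
  by_contra hn
  refine hns ⟨Quotient S, hfin, α, Quotient.mk S [], ?_, ?_⟩
  · intro p hp m
    induction m using Quotient.inductionOn with
    | h x =>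
      rw [hact, hact]
      refine Quotient.sound ?_
      have h1 := RStep.mk (R := R) x [] p.1 p.2 hp
      rw [List.append_nil, List.append_nil] at h1
      exact Relation.EqvGen.rel _ _ (Or.inl h1)
  · rw [hact, hact]
    intro e
    have e2 : Relation.EqvGen (GStep G R) ([] ++ a) ([] ++ b) := Quotient.exact e
    exact hn e2

/-- If no finite action separates the two words, the target word can be formed on every finite
group. -/
theorem target_mem_finite {G : Type u} [Group G] [Finite G] {R : List (List Bool × List Bool)}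
    {E : Word → Prop} (hE : ClosedFor G (allWords R) E) {a b : List Bool}
    (hns : ¬ FinSep R a b) : E (target a b) :=
  (VQ_genG hE (eqvG_of_not_finSep G hns)).1 _ (hE.var 0)

/-! ### Separation by a finite action is recursively enumerable -/

/-- The data of a finite action on `{0, ..., k}`: two tables, the number `k` and a point. -/
abbrev Tab := (List ℕ × List ℕ) × ℕ × ℕ

/-- The action of a letter given by the tables. -/
def tabL (t : Tab) (b : Bool) (m : ℕ) : ℕ := ((bif b then t.1.2 else t.1.1).getD m 0) % (t.2.1 + 1)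

/-- The action of a word given by the tables. -/
def tabW (t : Tab) (g : List Bool) (m : ℕ) : ℕ := g.foldl (fun m b => tabL t b m) m

/-- The tables define an action of `R` which separates `a` and `b` at the point of the data. -/
def Chk (R : List (List Bool × List Bool)) (a b : List Bool) (t : Tab) : Prop :=
  (∀ m < t.2.1 + 1, ∀ p ∈ R, tabW t p.1 m = tabW t p.2 m) ∧ t.2.2 < t.2.1 + 1 ∧
    tabW t a t.2.2 ≠ tabW t b t.2.2

theorem tab_act (t : Tab) (g : List Bool) (m : Fin (t.2.1 + 1)) :
    ((actW (fun b (i : Fin (t.2.1 + 1)) => (⟨tabL t b i, Nat.mod_lt _ (Nat.succ_pos _)⟩ :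
      Fin (t.2.1 + 1))) g m : Fin (t.2.1 + 1)) : ℕ) = tabW t g m := by
  induction g generalizing m with
  | nil => rfl
  | cons k g ih =>
    rw [actW_cons, ih]
    rfl

theorem finSep_iff (R : List (List Bool × List Bool)) (a b : List Bool) :
    FinSep R a b ↔ ∃ t : Tab, Chk R a b t := by
  constructor
  · rintro ⟨s, hs, α, m0, hrel, hne⟩
    obtain ⟨n, ⟨e⟩⟩ := Finite.exists_equiv_fin s
    obtain ⟨k, rfl⟩ : ∃ k, n = k + 1 := by
      cases n with
      | zero => exact (e m0).elim0
      | succ k => exact ⟨k, rfl⟩
    let t : Tab := ((List.ofFn fun i => (e (α false (e.symm i)) : ℕ),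
      List.ofFn fun i => (e (α true (e.symm i)) : ℕ)), k, (e m0 : ℕ))
    have hL : ∀ (b : Bool) (x : s), tabL t b (e x) = e (α b x) := by
      intro b x
      have hx : (e x : ℕ) < k + 1 := (e x).2
      have hx' : ∀ i : Fin (k + 1), (i : ℕ) % (k + 1) = i := fun i => Nat.mod_eq_of_lt i.2
      cases b
      · simp only [tabL, t, cond_false]
        rw [List.getD_eq_getElem _ _ (by rw [List.length_ofFn]; exact hx), List.getElem_ofFn]
        simp [hx']
      · simp only [tabL, t, cond_true]
        rw [List.getD_eq_getElem _ _ (by rw [List.length_ofFn]; exact hx), List.getElem_ofFn]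
        simp [hx']
    have hW : ∀ (g : List Bool) (x : s), tabW t g (e x) = e (actW α g x) := by
      intro g
      induction g with
      | nil => intro x; rfl
      | cons c g ih =>
        intro x
        rw [actW_cons, ← ih]
        unfold tabW
        rw [List.foldl_cons, hL]
    refine ⟨t, ?_, (e m0).2, ?_⟩
    · intro m hm p hp
      have h1 : (e (e.symm ⟨m, hm⟩) : ℕ) = m := by rw [Equiv.apply_symm_apply]
      rw [← h1, hW, hW, hrel p hp]
    · change tabW t a (e m0) ≠ tabW t b (e m0)
      rw [hW, hW]
      intro h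
      exact hne (e.injective (Fin.ext h))
  · rintro ⟨t, h1, h2, h3⟩
    refine ⟨Fin (t.2.1 + 1), inferInstance, fun b (i : Fin (t.2.1 + 1)) =>
      ⟨tabL t b i, Nat.mod_lt _ (Nat.succ_pos _)⟩, ⟨t.2.2, h2⟩, ?_, ?_⟩
    · intro p hp m
      refine Fin.ext ?_
      rw [tab_act, tab_act]
      exact h1 m m.2 p hp
    · intro h
      have h' := congrArg Fin.val h
      rw [tab_act, tab_act] at h'
      exact h3 h'

theorem prim_tabW {α : Type} [Primcodable α] {t : α → Tab} {g : α → List Bool} {m : α → ℕ}
    (ht : Primrec t) (hg : Primrec g) (hm : Primrec m) : Primrec fun a => tabW (t a) (g a) (m a) := by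
  unfold tabW tabL
  refine Primrec.list_foldl (f := g) (g := m)
    (h := fun a (q : ℕ × Bool) => ((bif q.2 then (t a).1.2 else (t a).1.1).getD q.1 0) %
      ((t a).2.1 + 1)) hg hm ?_
  have ht' : Primrec (fun x : α × ℕ × Bool => t x.1) := ht.comp Primrec.fst
  refine Primrec.nat_mod.comp ?_ (Primrec.succ.comp (Primrec.fst.comp (Primrec.snd.comp ht')))
  refine (Primrec.list_getD 0).comp ?_ (Primrec.fst.comp Primrec.snd)
  exact Primrec.cond (Primrec.snd.comp Primrec.snd) (Primrec.snd.comp (Primrec.fst.comp ht'))
    (Primrec.fst.comp (Primrec.fst.comp ht'))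

theorem prim_chk (R : List (List Bool × List Bool)) (b : List Bool) :
    PrimrecPred fun q : List Bool × Tab => Chk R q.1 b q.2 := by
  have h1 : ∀ R' : List (List Bool × List Bool),
      PrimrecPred fun q : ℕ × Tab => ∀ p ∈ R', tabW q.2 p.1 q.1 = tabW q.2 p.2 q.1 := by
    intro R'
    induction R' with
    | nil => exact (PrimrecRel.comp Primrec.eq (Primrec.const true)
        (Primrec.const true)).of_eq (fun a => by simp)
    | cons r R' ih =>
      refine (PrimrecPred.and (PrimrecRel.comp Primrec.eq
        (prim_tabW Primrec.snd (Primrec.const r.1) Primrec.fst)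
        (prim_tabW Primrec.snd (Primrec.const r.2) Primrec.fst)) ih).of_eq fun a => by simp
  have h2 : PrimrecRel fun (n : ℕ) (t : Tab) => ∀ m < n, ∀ p ∈ R, tabW t p.1 m = tabW t p.2 m :=
    ((PrimrecRel.forall_mem_list
      (R := fun (m : ℕ) (t : Tab) => ∀ p ∈ R, tabW t p.1 m = tabW t p.2 m) (h1 R)).comp
        (Primrec.list_range.comp Primrec.fst) Primrec.snd).of_eq (by simp)
  have hk : Primrec (fun q : List Bool × Tab => q.2.2.1 + 1) :=
    Primrec.succ.comp (Primrec.fst.comp (Primrec.snd.comp Primrec.snd))
  have hm : Primrec (fun q : List Bool × Tab => q.2.2.2) :=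
    Primrec.snd.comp (Primrec.snd.comp Primrec.snd)
  unfold Chk
  refine PrimrecPred.and (h2.comp hk Primrec.snd) (PrimrecPred.and ?_ ?_)
  · exact PrimrecRel.comp Primrec.nat_lt hm hk
  · exact PrimrecPred.not (PrimrecRel.comp Primrec.eq (prim_tabW Primrec.snd Primrec.fst hm)
      (prim_tabW Primrec.snd (Primrec.const b) hm))

theorem re_finSep (R : List (List Bool × List Bool)) (b : List Bool) {α : Type} [Primcodable α]
    {w : α → List Bool} (hw : Primrec w) : REPred fun a => FinSep R (w a) b := by
  classical
  let Q : α → ℕ → Bool := fun a k =>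
    decide (∃ t ∈ (Encodable.decode k : Option Tab).toList, Chk R (w a) b t)
  have hQ : Primrec₂ Q := by
    refine PrimrecPred.decide ?_
    have hrel : PrimrecRel fun (t : Tab) (x : List Bool) => Chk R x b t :=
      (prim_chk R b).comp (Primrec.pair Primrec.snd Primrec.fst)
    refine (hrel.exists_mem_list).comp ?_ (hw.comp Primrec.fst)
    exact (Primrec.optionToList).comp (Primrec.decode.comp Primrec.snd)
  refine (re_of_search hQ).of_eq fun a => ?_
  rw [finSep_iff]
  constructor
  · rintro ⟨k, hk⟩
    simp only [Q, decide_eq_true_eq] at hk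
    obtain ⟨t, _, ht⟩ := hk
    exact ⟨t, ht⟩
  · rintro ⟨t, ht⟩
    refine ⟨Encodable.encode t, ?_⟩
    simp only [Q, decide_eq_true_eq]
    exact ⟨t, Option.mem_toList.2 (Encodable.encodek t), ht⟩

/-! ### Completeness -/

/-- Every recursively enumerable set is many-one reducible to every recursively enumerable set which
contains the ones of the diagonal function and none of its zeros. -/
theorem reduce' {A : ℕ → Prop} (hA : REPred A) (h0 : ∀ n, 1 ∈ diag n → A n)
    (h1 : ∀ n, 0 ∈ diag n → ¬ A n) {W : ℕ → Prop} (hW : REPred W) :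
    ∃ g : ℕ → ℕ, Computable g ∧ ∀ n, W n ↔ A (g n) := by
  have hf : Partrec (fun q : ℕ × ℕ => (Part.assert (W q.1) fun _ => Part.some ()).map
      (fun _ => 1)) :=
    Partrec.map (Partrec.comp hW Computable.fst) (Computable.const 1).to₂
  have hg : Partrec (fun q : ℕ × ℕ => (Part.assert (A q.2) fun _ => Part.some ()).map
      (fun _ => 0)) :=
    Partrec.map (Partrec.comp hA Computable.snd) (Computable.const 0).to₂
  obtain ⟨k, hk, hkk⟩ := Partrec.merge' hf hg
  have hk' : Partrec (fun n : ℕ => k (Nat.unpair n)) := hk.comp Computable.unpair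
  obtain ⟨c, hc⟩ := Code.exists_code.1 (Partrec.nat_iff.1 hk')
  have key : ∀ n, diag (Encodable.encode (Code.curry c n)) =
      k (n, Encodable.encode (Code.curry c n)) := by
    intro n
    simp only [diag, Denumerable.ofNat_encode, Code.eval_curry, hc, Nat.unpair_pair]
  refine ⟨fun n => Encodable.encode (Code.curry c n),
    Computable.encode.comp (Code.primrec₂_curry.comp (Primrec.const c) Primrec.id).to_comp,
    fun n => ?_⟩
  set x := Encodable.encode (Code.curry c n) with hx
  have hkn := hkk (n, x)
  have hdom : (k (n, x)).Dom ↔ W n ∨ A x := by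
    rw [hkn.2]
    simp [Part.map, Part.assert]
  have hval : ∀ v ∈ k (n, x), (v = 1 ∧ W n) ∨ (v = 0 ∧ A x) := by
    intro v hv
    rcases hkn.1 v hv with h | h
    · left
      simp at h
      exact ⟨h.2.symm ▸ rfl, h.1⟩
    · right
      simp at h
      exact ⟨h.2.symm ▸ rfl, h.1⟩
  constructor
  · intro hw
    obtain ⟨v, hv⟩ := Part.dom_iff_mem.1 (hdom.2 (Or.inl hw))
    rcases hval v hv with ⟨rfl, _⟩ | ⟨rfl, h⟩
    · exact h0 x (by rw [hx, key n]; exact hv)
    · exact h
  · intro ha
    obtain ⟨v, hv⟩ := Part.dom_iff_mem.1 (hdom.2 (Or.inr ha))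
    rcases hval v hv with ⟨_, h⟩ | ⟨rfl, _⟩
    · exact h
    · exact absurd ha (h1 x (by rw [hx, key n]; exact hv))

/-- **The package for finite groups.** A fixed nonempty list `B :: Bs` of words and a computable
sequence of words `t n`; `A` is recursively enumerable, contains the ones of the diagonal function
and none of its zeros; for `n` in `A` the word `t n` is not preserved by some finite action which
preserves the list; for the other `n` the word `t n` can be formed from the list on every finite
group, and for the zeros of the diagonal function on every group. -/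
theorem package_finite : ∃ (B : Word) (Bs : List Word) (t : ℕ → Word) (A : ℕ → Prop),
    Computable t ∧ REPred A ∧ (∀ n, 1 ∈ diag n → A n) ∧ (∀ n, 0 ∈ diag n → ¬ A n) ∧
    (∀ n, 0 ∈ diag n → ∀ (G : Type u) [Group G] (E : Word → Prop),
      ClosedFor G (B :: Bs) E → E (t n)) ∧
    (∀ n, ¬ A n → ∀ (G : Type u) [Group G] [Finite G] (E : Word → Prop),
      ClosedFor G (B :: Bs) E → E (t n)) ∧
    ∀ n, A n → ∃ (s : Type u) (_ : Finite s) (α : Bool → s → s),
      (∀ B' ∈ B :: Bs, Good α B') ∧ ¬ Good α (t n) := by
  obtain ⟨R, c1, c2, d0, d1, h, hR, hc1, hh, hn⟩ :=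
    exists_system diag (Partrec.nat_iff.1 diag_partrec)
  obtain ⟨B, Bs, hB⟩ : ∃ B Bs, allWords R = B :: Bs := ⟨_, _, rfl⟩
  have hin : ∀ n, inpW c1 c2 d0 d1 n ≠ [] := by
    intro n
    unfold inpW
    simp [hc1]
  have hact : ∀ {s : Type} (α : Bool → s → s),
      (∀ p ∈ R, ∀ m, actW α p.1 m = actW α p.2 m) → ∀ a b : List Bool,
        Relation.EqvGen (RStep R) a b → ∀ m, actW α a m = actW α b m := by
    intro s α hrel a b hab
    have happ : ∀ (x y : List Bool) (m : s), actW α (x ++ y) m = actW α y (actW α x m) := by
      intro x y m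
      unfold actW
      rw [List.foldl_append]
    induction hab with
    | rel a b h =>
      obtain ⟨u, v, g, h, H⟩ := h
      intro m
      rw [happ, happ, happ, happ, hrel _ H]
    | refl a => exact fun _ => rfl
    | symm a b _ ih => exact fun m => (ih m).symm
    | trans a b c _ _ ih1 ih2 => exact fun m => (ih1 m).trans (ih2 m)
  refine ⟨B, Bs, fun n => target (inpW c1 c2 d0 d1 n) h, fun n => FinSep R (inpW c1 c2 d0 d1 n) h,
    (prim_main c1 c2 d0 d1 h).to_comp, re_finSep R h (prim_inpW c1 c2 d0 d1), ?_, ?_, ?_, ?_, ?_⟩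
  · exact fun n h1 => (hn n).2 h1
  · rintro n h0 ⟨s, hs, α, m, hrel, hne⟩
    exact hne (hact α hrel _ _ ((hn n).1 h0) m)
  · intro n h0 G _ E hE
    rw [← hB] at hE
    exact target_mem hE ((hn n).1 h0)
  · intro n h0 G _ _ E hE
    rw [← hB] at hE
    exact target_mem_finite hE h0
  · rintro n ⟨s, hs, α, m, hrel, hne⟩
    refine ⟨ULift.{u} s, inferInstance, liftA.{u} α, ?_, ?_⟩
    · rw [← hB]
      refine good_all (liftA α) R fun p hp => ⟨hR p hp, fun m => ?_⟩
      rw [actW_liftA, actW_liftA, hrel p hp]
    · refine target_not_good (liftA.{u} α) (hin n) hh ⟨m⟩ ?_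
      rw [actW_liftA, actW_liftA]
      intro e
      exact hne (congrArg ULift.down e)

end Pool.Agent.Y669.GW
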