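import Pool.Agent.Helper583.Insep

/-!
# Expressibility of words in one fixed list of words

The set of the words which are expressible in the words of one fixed list is recursively
enumerable-hard, and no computable set separates it from the words which are not expressible on
some finite symmetric group.
-/

set_option autoImplicit false

namespace Pool.Agent.Y669.GW

open Pool.Agent.Helper583
open Nat.Partrec (Code)

universe u

/-- The diagonal function. -/
def diag : ℕ →. ℕ := fun n => Code.eval (Denumerable.ofNat Code n) n

theorem diag_partrec : Partrec diag :=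
  Code.eval_part.comp (Computable.ofNat _) Computable.id

/-- `0` and `1` are recursively inseparable values of the diagonal function. -/
theorem diag_insep (p : ℕ → Prop) (hp : ComputablePred p) (h0 : ∀ n, 0 ∈ diag n → p n)
    (h1 : ∀ n, 1 ∈ diag n → ¬ p n) : False := by
  classical
  obtain ⟨hd, hc⟩ := hp
  let g : ℕ → ℕ := fun n => bif decide (p n) then 1 else 0
  have hg : Computable g := Computable.cond hc (Computable.const 1) (Computable.const 0)
  obtain ⟨c, hcode⟩ := Code.exists_code.1 (Partrec.nat_iff.1 hg.partrec)
  have hn : diag (Encodable.encode c) = Part.some (g (Encodable.encode c)) := by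
    simp only [diag, Denumerable.ofNat_encode, hcode]
    rfl
  by_cases hpn : p (Encodable.encode c)
  · refine h1 _ ?_ hpn
    rw [hn]
    simp [g, hpn]
  · refine hpn (h0 _ ?_)
    rw [hn]
    simp [g, hpn]

/-- Every recursively enumerable set is many-one reducible to every recursively enumerable set which
contains the zeros of the diagonal function and none of its ones. -/
theorem reduce {A : ℕ → Prop} (hA : REPred A) (h0 : ∀ n, 0 ∈ diag n → A n)
    (h1 : ∀ n, 1 ∈ diag n → ¬ A n) {W : ℕ → Prop} (hW : REPred W) :
    ∃ g : ℕ → ℕ, Computable g ∧ ∀ n, W n ↔ A (g n) := by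
  have hf : Partrec (fun q : ℕ × ℕ => (Part.assert (W q.1) fun _ => Part.some ()).map
      (fun _ => 0)) :=
    Partrec.map (Partrec.comp hW Computable.fst) (Computable.const 0).to₂
  have hg : Partrec (fun q : ℕ × ℕ => (Part.assert (A q.2) fun _ => Part.some ()).map
      (fun _ => 1)) :=
    Partrec.map (Partrec.comp hA Computable.snd) (Computable.const 1).to₂
  obtain ⟨k, hk, hkk⟩ := Partrec.merge' hf hg
  have hk' : Partrec (fun n : ℕ => k (Nat.unpair n)) := hk.comp Computable.unpair
  obtain ⟨c, hc⟩ := Code.exists_code.1 (Partrec.nat_iff.1 hk')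
  have key : ∀ n, diag (Encodable.encode (Code.curry c n)) =
      k (n, Encodable.encode (Code.curry c n)) := by
    intro n
    simp only [diag, Denumerable.ofNat_encode, Code.eval_curry, hc, Nat.unpair_pair]
  refine ⟨fun n => Encodable.encode (Code.curry c n),
    Computable.encode.comp (Code.primrec₂_curry.comp (Primrec.const c) Primrec.id).to_comp,
    fun n => ?_⟩
  set x := Encodable.encode (Code.curry c n) with hx
  have hkn := hkk (n, x)
  have hdom : (k (n, x)).Dom ↔ W n ∨ A x := by
    rw [hkn.2]
    simp [Part.map, Part.assert]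
  have hval : ∀ v ∈ k (n, x), (v = 0 ∧ W n) ∨ (v = 1 ∧ A x) := by
    intro v hv
    rcases hkn.1 v hv with h | h
    · left
      simp at h
      exact ⟨h.2.symm ▸ rfl, h.1⟩
    · right
      simp at h
      exact ⟨h.2.symm ▸ rfl, h.1⟩
  have hno : 1 ∉ k (n, x) ∨ ¬ A x := by
    by_cases h : 1 ∈ k (n, x)
    · right
      exact h1 x (by rw [hx, key n]; exact h)
    · exact Or.inl h
  constructor
  · intro hw
    obtain ⟨v, hv⟩ := Part.dom_iff_mem.1 (hdom.2 (Or.inl hw))
    rcases hval v hv with ⟨rfl, _⟩ | ⟨rfl, h⟩
    · exact h0 x (by rw [hx, key n]; exact hv)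
    · exact h
  · intro ha
    obtain ⟨v, hv⟩ := Part.dom_iff_mem.1 (hdom.2 (Or.inr ha))
    rcases hval v hv with ⟨_, h⟩ | ⟨rfl, _⟩
    · exact h
    · exact absurd ha (h1 x (by rw [hx, key n]; exact hv))

end Pool.Agent.Y669.GW
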