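import Pool.Agent.Y669.GW.Insep

/-!
# The word problem of a rewriting system is recursively enumerable, and its canonical action
-/

set_option autoImplicit false

namespace Pool.Agent.Y669.GW

open Pool.Agent.Helper583
open Nat.Partrec (Code)

universe u

/-- one entry of a certificate: a context and a rule, used from left to right -/
abbrev Ent := List Bool × List Bool × List Bool × List Bool

/-- replay a certificate -/
def run (R : List (List Bool × List Bool)) (w : List Bool) (c : List Ent) : Option (List Bool) :=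
  c.foldl (fun o e => o.bind fun w => if (w = e.1 ++ e.2.1 ++ e.2.2.2 ∧
    ((e.2.1, e.2.2.1) ∈ R ∨ (e.2.2.1, e.2.1) ∈ R)) then some (e.1 ++ e.2.2.1 ++ e.2.2.2)
      else none) (some w)

theorem foldl_none (R : List (List Bool × List Bool)) (c : List Ent) :
    c.foldl (fun o e => o.bind fun w => if (w = e.1 ++ e.2.1 ++ e.2.2.2 ∧
    ((e.2.1, e.2.2.1) ∈ R ∨ (e.2.2.1, e.2.1) ∈ R)) then some (e.1 ++ e.2.2.1 ++ e.2.2.2)
      else none) none = none := by
  induction c with
  | nil => rfl
  | cons e c ih => simpa using ih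

theorem run_cons (R : List (List Bool × List Bool)) (w : List Bool) (e : Ent) (c : List Ent) :
    run R w (e :: c) = if (w = e.1 ++ e.2.1 ++ e.2.2.2 ∧
      ((e.2.1, e.2.2.1) ∈ R ∨ (e.2.2.1, e.2.1) ∈ R)) then run R (e.1 ++ e.2.2.1 ++ e.2.2.2) c
        else none := by
  unfold run
  rw [List.foldl_cons]
  split_ifs with h
  · simp only [Option.bind_some]
    rw [if_pos h]
  · simp only [Option.bind_some]
    rw [if_neg h, foldl_none]

theorem run_append (R : List (List Bool × List Bool)) (c d : List Ent) (w v : List Bool)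
    (h : run R w c = some v) : run R w (c ++ d) = run R v d := by
  unfold run at *
  rw [List.foldl_append, h]

theorem eqv_iff (R : List (List Bool × List Bool)) (w v : List Bool) :
    Relation.EqvGen (RStep R) w v ↔ ∃ c, run R w c = some v := by
  constructor
  · intro h
    have key : ∀ a b, Relation.EqvGen (RStep R) a b →
        (∃ c, run R a c = some b) ∧ ∃ c, run R b c = some a := by
      intro a b h
      induction h with
      | rel a b h =>
        obtain ⟨x, y, g, h, H⟩ := h
        refine ⟨⟨[(x, g, h, y)], ?_⟩, ⟨[(x, h, g, y)], ?_⟩⟩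
        · rw [run_cons, if_pos ⟨rfl, Or.inl H⟩]; rfl
        · rw [run_cons, if_pos ⟨rfl, Or.inr H⟩]; rfl
      | refl a => exact ⟨⟨[], rfl⟩, ⟨[], rfl⟩⟩
      | symm a b _ ih => exact ih.symm
      | trans a b c _ _ ih1 ih2 =>
        obtain ⟨⟨c1, h1⟩, ⟨c2, h2⟩⟩ := ih1
        obtain ⟨⟨c3, h3⟩, ⟨c4, h4⟩⟩ := ih2
        exact ⟨⟨c1 ++ c3, by rw [run_append R _ _ _ _ h1, h3]⟩,
          ⟨c4 ++ c2, by rw [run_append R _ _ _ _ h4, h2]⟩⟩
    exact (key w v h).1
  · rintro ⟨c, hc⟩
    induction c generalizing w with
    | nil =>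
      have : w = v := by simpa [run] using hc
      subst this
      exact Relation.EqvGen.refl _
    | cons e c ih =>
      rw [run_cons] at hc
      split_ifs at hc with h
      obtain ⟨rfl, h | h⟩ := h
      · exact (Relation.EqvGen.rel _ _ (RStep.mk _ _ _ _ h)).trans _ _ _ (ih _ hc)
      · exact ((Relation.EqvGen.rel _ _ (RStep.mk e.1 e.2.2.2 _ _ h)).symm _ _).trans _ _ _
          (ih _ hc)

theorem prim_run (R : List (List Bool × List Bool)) :
    Primrec (fun q : List Bool × List Ent => run R q.1 q.2) := by
  unfold run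
  have hmem : ∀ (α : Type) [Primcodable α] (f : α → List Bool × List Bool), Primrec f →
      PrimrecPred (fun a => f a ∈ R) := by
    intro α _ f hf
    induction R with
    | nil => exact (PrimrecRel.comp Primrec.eq (Primrec.const false)
        (Primrec.const true)).of_eq (fun a => by simp)
    | cons r R ih =>
      refine (PrimrecPred.or (PrimrecRel.comp Primrec.eq hf (Primrec.const r)) ih).of_eq
        fun a => by simp
  refine Primrec.list_foldl (f := fun q : List Bool × List Ent => q.2)
    (g := fun q => some q.1) (h := fun _ (p : Option (List Bool) × Ent) => p.1.bind fun w =>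
      if (w = p.2.1 ++ p.2.2.1 ++ p.2.2.2.2 ∧
        ((p.2.2.1, p.2.2.2.1) ∈ R ∨ (p.2.2.2.1, p.2.2.1) ∈ R)) then
          some (p.2.1 ++ p.2.2.2.1 ++ p.2.2.2.2) else none)
    Primrec.snd (Primrec.option_some.comp Primrec.fst) ?_
  refine Primrec.option_bind (Primrec.fst.comp Primrec.snd) ?_
  have e : Primrec (fun q : ((List Bool × List Ent) × Option (List Bool) × Ent) × List Bool =>
      q.1.2.2) := Primrec.snd.comp (Primrec.snd.comp Primrec.fst)
  have e1 := Primrec.fst.comp e
  have e2 := Primrec.fst.comp (Primrec.snd.comp e)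
  have e3 := Primrec.fst.comp (Primrec.snd.comp (Primrec.snd.comp e))
  have e4 := Primrec.snd.comp (Primrec.snd.comp (Primrec.snd.comp e))
  refine Primrec.ite ?_ ?_ (Primrec.const none)
  · refine PrimrecPred.and ?_ (PrimrecPred.or ?_ ?_)
    · exact PrimrecRel.comp Primrec.eq Primrec.snd
        (Primrec.list_append.comp (Primrec.list_append.comp e1 e2) e4)
    · exact hmem _ _ (Primrec.pair e2 e3)
    · exact hmem _ _ (Primrec.pair e3 e2)
  · exact Primrec.option_some.comp
      (Primrec.list_append.comp (Primrec.list_append.comp e1 e3) e4)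

theorem re_of_search {α : Type} [Primcodable α] {Q : α → ℕ → Bool} (hQ : Primrec₂ Q) :
    REPred (fun a => ∃ k, Q a k = true) := by
  have h1 : Partrec (fun x : α => Nat.rfind (fun k => (Part.some (Q x k) : Part Bool))) :=
    Partrec.rfind hQ.to_comp.partrec₂
  refine (h1.dom_re).of_eq fun x => ?_
  refine Iff.trans Nat.rfind_dom ?_
  constructor
  · rintro ⟨k, hk, _⟩
    simp only [Part.mem_some_iff] at hk
    exact ⟨k, hk.symm⟩
  · rintro ⟨k, hk⟩
    exact ⟨k, by simp [hk], fun _ => trivial⟩

theorem re_eqv (R : List (List Bool × List Bool)) (h : List Bool) {α : Type} [Primcodable α]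
    {w : α → List Bool} (hw : Primrec w) :
    REPred (fun a => Relation.EqvGen (RStep R) (w a) h) := by
  let Q : α → ℕ → Bool := fun a k =>
    decide (((Encodable.decode k : Option (List Ent)).bind (fun c => run R (w a) c)) = some h)
  have hQ : Primrec₂ Q := by
    refine PrimrecPred.decide ?_
    refine PrimrecRel.comp Primrec.eq ?_ (Primrec.const (some h))
    refine Primrec.option_bind (Primrec.decode.comp Primrec.snd) ?_
    exact (prim_run R).comp (Primrec.pair (hw.comp (Primrec.fst.comp Primrec.fst)) Primrec.snd)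
  refine (re_of_search hQ).of_eq fun a => ?_
  rw [eqv_iff]
  constructor
  · rintro ⟨k, hk⟩
    simp only [Q, decide_eq_true_eq] at hk
    rw [Option.bind_eq_some_iff] at hk
    obtain ⟨c, _, hc⟩ := hk
    exact ⟨c, hc⟩
  · rintro ⟨c, hc⟩
    refine ⟨Encodable.encode c, ?_⟩
    simp only [Q, decide_eq_true_eq]
    rw [Encodable.encodek, Option.bind_some, hc]

/-- The canonical action: words modulo the rewriting system. -/
theorem canonical (R : List (List Bool × List Bool)) (w h : List Bool)
    (hn : ¬ Relation.EqvGen (RStep R) w h) :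
    ∃ (s : Type u) (_ : Countable s) (α : Bool → s → s) (m : s),
      (∀ p ∈ R, ∀ m, actW α p.1 m = actW α p.2 m) ∧ actW α w m ≠ actW α h m := by
  have happ : ∀ (x y z : List Bool), Relation.EqvGen (RStep R) x y →
      Relation.EqvGen (RStep R) (x ++ z) (y ++ z) := by
    intro x y z hxy
    induction hxy with
    | rel a b h =>
      obtain ⟨u, v, g, h, H⟩ := h
      have := RStep.mk (R := R) u (v ++ z) g h H
      simpa using Relation.EqvGen.rel _ _ this
    | refl a => exact Relation.EqvGen.refl _
    | symm a b _ ih => exact ih.symm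
    | trans a b c _ _ ih1 ih2 => exact ih1.trans _ _ _ ih2
  let S : Setoid (List Bool) := Relation.EqvGen.setoid (RStep R)
  let α0 : Bool → Quotient S → Quotient S := fun k =>
    Quotient.map (fun x => x ++ [k]) (fun x y hxy => happ x y [k] hxy)
  have hact : ∀ (g x : List Bool), actW α0 g (Quotient.mk S x) = Quotient.mk S (x ++ g) := by
    intro g
    induction g with
    | nil => intro x; simp
    | cons k g ih =>
      intro x
      rw [actW_cons]
      change actW α0 g (Quotient.mk S (x ++ [k])) = _
      rw [ih, List.append_assoc]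
      rfl
  have : Countable (Quotient S) := inferInstance
  refine ⟨ULift.{u} (Quotient S), inferInstance, liftA.{u} α0, ⟨Quotient.mk S []⟩, ?_, ?_⟩
  · intro p hp m
    rw [actW_liftA, actW_liftA]
    congr 1
    obtain ⟨m⟩ := m
    induction m using Quotient.inductionOn with
    | h x =>
      change actW α0 p.1 (Quotient.mk S x) = actW α0 p.2 (Quotient.mk S x)
      rw [hact, hact]
      refine Quotient.sound ?_
      have h1 := RStep.mk (R := R) x [] p.1 p.2 hp
      rw [List.append_nil, List.append_nil] at h1
      exact Relation.EqvGen.rel _ _ h1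
  · rw [actW_liftA, actW_liftA]
    intro e
    have e' := congrArg ULift.down e
    change actW α0 w (Quotient.mk S []) = actW α0 h (Quotient.mk S []) at e'
    rw [hact, hact] at e'
    have e2 : Relation.EqvGen (RStep R) ([] ++ w) ([] ++ h) := Quotient.exact e'
    exact hn e2

/-- **The package.** A fixed nonempty list `B :: Bs` of words and a computable sequence of words
`t n`; `A` is recursively enumerable, contains the zeros of the diagonal function; for `n` in `A`
the word `t n` can be formed from the list on every group; for the other `n` it is not preserved by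
some action which preserves the list, and for the ones of the diagonal function this action can be
taken finite. -/
theorem package : ∃ (B : Word) (Bs : List Word) (t : ℕ → Word) (A : ℕ → Prop), Computable t ∧
    REPred A ∧ (∀ n, 0 ∈ diag n → A n) ∧
    (∀ n, A n → ∀ (G : Type u) [Group G] (E : Word → Prop), ClosedFor G (B :: Bs) E → E (t n)) ∧
    (∀ n, 1 ∈ diag n → ∃ (s : Type u) (_ : Finite s) (α : Bool → s → s),
      (∀ B' ∈ B :: Bs, Good α B') ∧ ¬ Good α (t n)) ∧
    ∀ n, ¬ A n → ∃ (s : Type u) (_ : Countable s) (α : Bool → s → s),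
      (∀ B' ∈ B :: Bs, Good α B') ∧ ¬ Good α (t n) := by
  obtain ⟨R, c1, c2, d0, d1, h, hR, hc1, hh, hn⟩ :=
    exists_system diag (Partrec.nat_iff.1 diag_partrec)
  obtain ⟨B, Bs, hB⟩ : ∃ B Bs, allWords R = B :: Bs := ⟨_, _, rfl⟩
  have hin : ∀ n, inpW c1 c2 d0 d1 n ≠ [] := by
    intro n
    unfold inpW
    simp [hc1]
  refine ⟨B, Bs, fun n => target (inpW c1 c2 d0 d1 n) h,
    fun n => Relation.EqvGen (RStep R) (inpW c1 c2 d0 d1 n) h,
    (prim_main c1 c2 d0 d1 h).to_comp, re_eqv R h (prim_inpW c1 c2 d0 d1),
    fun n h0 => (hn n).1 h0, fun n h0 G _ E hE => ?_, fun n h1 => ?_, fun n h1 => ?_⟩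
  · rw [← hB] at hE
    exact target_mem hE h0
  · obtain ⟨s, hs, α, m, hrel, hne⟩ := (hn n).2 h1
    refine ⟨ULift.{u} s, inferInstance, liftA.{u} α, ?_, ?_⟩
    · rw [← hB]
      refine good_all (liftA α) R fun p hp => ⟨hR p hp, fun m => ?_⟩
      rw [actW_liftA, actW_liftA, hrel p hp]
    · refine target_not_good (liftA.{u} α) (hin n) hh ⟨m⟩ ?_
      rw [actW_liftA, actW_liftA]
      intro e
      exact hne (congrArg ULift.down e)
  · obtain ⟨s, hs, α, m, hrel, hne⟩ := canonical.{u} R _ _ h1
    refine ⟨s, hs, α, ?_, target_not_good α (hin n) hh m hne⟩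
    rw [← hB]
    exact good_all α R fun p hp => ⟨hR p hp, hrel p hp⟩

end Pool.Agent.Y669.GW
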